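import Mathlib

set_option autoImplicit false

/-!
# Lyndon interpolation implies Lyndon positivity in monotone modal logics

Let `φ` be monotone in `Λ`, so that `Λ ⊢ φ → φ(p ∨ q)`. In the formula `φ(p ∨ q)`, which is in
negation normal form, the literals `¬p` of `φ` have become `¬p ∧ ¬q`. Replacing these
by `¬q` gives a weaker formula `φ'`. A Lyndon interpolant `θ` of `φ → φ'` contains only literals `p`
(the variables `q` being new), and the substitution `q := p` turns `θ → φ'` into `θ → φ`.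
-/

namespace Pool.Agent.Results.MP_55f31a_lc.LyndonPositivity

/-- Modal formulas in negation normal form. -/
inductive Fml : Type
  | lit : ℕ → Fml
  | nlit : ℕ → Fml
  | bot : Fml
  | top : Fml
  | and : Fml → Fml → Fml
  | or : Fml → Fml → Fml
  | dia : Fml → Fml
  | box : Fml → Fml

namespace Fml

/-- Negation, defined by the De Morgan laws and duality. -/
def neg : Fml → Fml
  | lit n => nlit n
  | nlit n => lit n
  | bot => top
  | top => bot
  | and φ ψ => or (neg φ) (neg ψ)
  | or φ ψ => and (neg φ) (neg ψ)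
  | dia φ => box (neg φ)
  | box φ => dia (neg φ)

/-- Implication. -/
def imp (φ ψ : Fml) : Fml := or (neg φ) ψ

/-- Equivalence. -/
def iff (φ ψ : Fml) : Fml := and (imp φ ψ) (imp ψ φ)

/-- Uniform substitution of formulas for the variables. -/
def subst (s : ℕ → Fml) : Fml → Fml
  | lit n => s n
  | nlit n => neg (s n)
  | bot => bot
  | top => top
  | and φ ψ => and (subst s φ) (subst s ψ)
  | or φ ψ => or (subst s φ) (subst s ψ)
  | dia φ => dia (subst s φ)
  | box φ => box (subst s φ)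

/-- The literals of a formula: `(n, true)` stands for the variable `n` and `(n, false)` for its
negation. -/
def lits : Fml → Set (ℕ × Bool)
  | lit n => {(n, true)}
  | nlit n => {(n, false)}
  | bot => ∅
  | top => ∅
  | and φ ψ => lits φ ∪ lits ψ
  | or φ ψ => lits φ ∪ lits ψ
  | dia φ => lits φ
  | box φ => lits φ

/-- The variables of a formula. -/
def vars (φ : Fml) : Set ℕ := {n | ∃ b, (n, b) ∈ lits φ}

/-- Positive formulas: no negated variable. -/
def Positive (φ : Fml) : Prop := ∀ n, (n, false) ∉ lits φ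

/-- Formulas without modalities. -/
def ModalFree : Fml → Prop
  | lit _ => True
  | nlit _ => True
  | bot => True
  | top => True
  | and φ ψ => ModalFree φ ∧ ModalFree ψ
  | or φ ψ => ModalFree φ ∧ ModalFree ψ
  | dia _ => False
  | box _ => False

/-- The truth value of a formula without modalities (the value at modal formulas is
irrelevant). -/
def eval (v : ℕ → Prop) : Fml → Prop
  | lit n => v n
  | nlit n => ¬ v n
  | bot => False
  | top => True
  | and φ ψ => eval v φ ∧ eval v ψ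
  | or φ ψ => eval v φ ∨ eval v ψ
  | dia _ => False
  | box _ => False

/-- Replacement of the literals (an auxiliary notion). -/
def rep (f g : ℕ → Fml) : Fml → Fml
  | lit n => f n
  | nlit n => g n
  | bot => bot
  | top => top
  | and φ ψ => and (rep f g φ) (rep f g ψ)
  | or φ ψ => or (rep f g φ) (rep f g ψ)
  | dia φ => dia (rep f g φ)
  | box φ => box (rep f g φ)

end Fml

open Fml

/-- Monotone modal logics. By closure under substitution, they contain all substitution
instances of classical tautologies. -/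
structure MonotoneLogic (Λ : Set Fml) : Prop where
  taut : ∀ φ, ModalFree φ → (∀ v : ℕ → Prop, eval v φ) → φ ∈ Λ
  dual : iff (box (lit 0)) (neg (dia (neg (lit 0)))) ∈ Λ
  mono : imp (dia (lit 0)) (dia (or (lit 0) (lit 1))) ∈ Λ
  mp : ∀ φ ψ, φ ∈ Λ → imp φ ψ ∈ Λ → ψ ∈ Λ
  subst : ∀ (s : ℕ → Fml) φ, φ ∈ Λ → subst s φ ∈ Λ
  cong : ∀ φ ψ, iff φ ψ ∈ Λ → iff (dia φ) (dia ψ) ∈ Λ

/-- `φ` is monotone in `Λ`: `Λ ⊢ φ(p) → φ(p ∨ q)` for new variables `q` (the variable `n` of `φ` is
replaced by `n ∨ q(n)`; the `q(n)` are distinct and do not occur in `φ`). -/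
def MonotoneIn (Λ : Set Fml) (φ : Fml) : Prop :=
  ∃ q : ℕ → ℕ, Set.InjOn q (vars φ) ∧ (∀ n ∈ vars φ, q n ∉ vars φ) ∧
    imp φ (subst (fun n => or (lit n) (lit (q n))) φ) ∈ Λ

/-- The Lyndon positivity property. -/
def LPP (Λ : Set Fml) : Prop :=
  ∀ φ, MonotoneIn Λ φ → ∃ ψ, Positive ψ ∧ iff φ ψ ∈ Λ

/-- The Lyndon interpolation property. -/
def LIP (Λ : Set Fml) : Prop :=
  ∀ φ ψ, imp φ ψ ∈ Λ → ∃ θ, lits θ ⊆ lits φ ∩ lits ψ ∧ imp φ θ ∈ Λ ∧ imp θ ψ ∈ Λ

/-! ### Syntax -/

@[simp] theorem neg_neg' (φ : Fml) : neg (neg φ) = φ := by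
  induction φ <;> simp_all [neg]

@[simp] theorem subst_neg (s : ℕ → Fml) (φ : Fml) : subst s (neg φ) = neg (subst s φ) := by
  induction φ <;> simp_all [neg, subst]

@[simp] theorem subst_imp (s : ℕ → Fml) (φ ψ : Fml) :
    subst s (imp φ ψ) = imp (subst s φ) (subst s ψ) := by
  simp [imp, subst]

@[simp] theorem subst_iff (s : ℕ → Fml) (φ ψ : Fml) :
    subst s (iff φ ψ) = iff (subst s φ) (subst s ψ) := by
  simp [iff, subst]

theorem subst_eq_rep (s : ℕ → Fml) (φ : Fml) : subst s φ = rep s (fun n => neg (s n)) φ := by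
  induction φ <;> simp_all [rep, subst]

theorem rep_id (φ : Fml) : rep lit nlit φ = φ := by
  induction φ <;> simp_all [rep]

theorem rep_congr {f g f' g' : ℕ → Fml} (φ : Fml) (h : ∀ n ∈ vars φ, f n = f' n ∧ g n = g' n) :
    rep f g φ = rep f' g' φ := by
  induction φ with
  | lit n => exact (h n ⟨true, rfl⟩).1
  | nlit n => exact (h n ⟨false, rfl⟩).2
  | bot => rfl
  | top => rfl
  | and φ ψ ih1 ih2 =>
    rw [rep, rep, ih1 (fun n ⟨b, hb⟩ => h n ⟨b, Or.inl hb⟩),
      ih2 (fun n ⟨b, hb⟩ => h n ⟨b, Or.inr hb⟩)]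
  | or φ ψ ih1 ih2 =>
    rw [rep, rep, ih1 (fun n ⟨b, hb⟩ => h n ⟨b, Or.inl hb⟩),
      ih2 (fun n ⟨b, hb⟩ => h n ⟨b, Or.inr hb⟩)]
  | dia φ ih => rw [rep, rep, ih h]
  | box φ ih => rw [rep, rep, ih h]

theorem subst_rep (s f g : ℕ → Fml) (φ : Fml) :
    subst s (rep f g φ) = rep (fun n => subst s (f n)) (fun n => subst s (g n)) φ := by
  induction φ <;> simp_all [rep, subst]

theorem lits_rep (f g : ℕ → Fml) (φ : Fml) (x : ℕ × Bool) (hx : x ∈ lits (rep f g φ)) :
    ∃ n ∈ vars φ, x ∈ lits (f n) ∨ x ∈ lits (g n) := by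
  induction φ with
  | lit n => exact ⟨n, ⟨true, rfl⟩, Or.inl hx⟩
  | nlit n => exact ⟨n, ⟨false, rfl⟩, Or.inr hx⟩
  | bot => exact hx.elim
  | top => exact hx.elim
  | and φ ψ ih1 ih2 =>
    rcases hx with hx | hx
    · obtain ⟨n, ⟨b, hb⟩, h⟩ := ih1 hx
      exact ⟨n, ⟨b, Or.inl hb⟩, h⟩
    · obtain ⟨n, ⟨b, hb⟩, h⟩ := ih2 hx
      exact ⟨n, ⟨b, Or.inr hb⟩, h⟩
  | or φ ψ ih1 ih2 =>
    rcases hx with hx | hx
    · obtain ⟨n, ⟨b, hb⟩, h⟩ := ih1 hx
      exact ⟨n, ⟨b, Or.inl hb⟩, h⟩
    · obtain ⟨n, ⟨b, hb⟩, h⟩ := ih2 hx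
      exact ⟨n, ⟨b, Or.inr hb⟩, h⟩
  | dia φ ih => exact ih hx
  | box φ ih => exact ih hx

/-! ### Rules -/

/-- A substitution on four variables. -/
def s4 (a b c d : Fml) : ℕ → Fml
  | 0 => a
  | 1 => b
  | 2 => c
  | _ => d

namespace MonotoneLogic

variable {Λ : Set Fml} (L : MonotoneLogic Λ)
include L

theorem inst {t : Fml} (h1 : ModalFree t) (h2 : ∀ v : ℕ → Prop, eval v t) (s : ℕ → Fml) :
    Fml.subst s t ∈ Λ := L.subst s t (L.taut t h1 h2)

theorem refl (a : Fml) : imp a a ∈ Λ := by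
  have := L.inst (t := imp (lit 0) (lit 0)) (by simp [imp, neg, ModalFree])
    (by intro v; simp only [imp, neg, eval]; tauto) (s4 a a a a)
  simpa [Fml.subst, s4] using this

theorem trans {a b c : Fml} (h1 : imp a b ∈ Λ) (h2 : imp b c ∈ Λ) : imp a c ∈ Λ := by
  have := L.inst (t := imp (imp (lit 0) (lit 1)) (imp (imp (lit 1) (lit 2)) (imp (lit 0) (lit 2))))
    (by simp [imp, neg, ModalFree])
    (by intro v; simp only [imp, neg, eval]; tauto) (s4 a b c a)
  simp only [subst_imp, Fml.subst, s4] at this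
  exact L.mp _ _ h2 (L.mp _ _ h1 this)

theorem and_mono {a b c d : Fml} (h1 : imp a c ∈ Λ) (h2 : imp b d ∈ Λ) :
    imp (and a b) (and c d) ∈ Λ := by
  have := L.inst (t := imp (imp (lit 0) (lit 2)) (imp (imp (lit 1) (lit 3))
      (imp (and (lit 0) (lit 1)) (and (lit 2) (lit 3)))))
    (by simp [imp, neg, ModalFree])
    (by intro v; simp only [imp, neg, eval]; tauto) (s4 a b c d)
  simp only [subst_imp, Fml.subst, s4] at this
  exact L.mp _ _ h2 (L.mp _ _ h1 this)

theorem or_mono {a b c d : Fml} (h1 : imp a c ∈ Λ) (h2 : imp b d ∈ Λ) :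
    imp (or a b) (or c d) ∈ Λ := by
  have := L.inst (t := imp (imp (lit 0) (lit 2)) (imp (imp (lit 1) (lit 3))
      (imp (or (lit 0) (lit 1)) (or (lit 2) (lit 3)))))
    (by simp [imp, neg, ModalFree])
    (by intro v; simp only [imp, neg, eval]; tauto) (s4 a b c d)
  simp only [subst_imp, Fml.subst, s4] at this
  exact L.mp _ _ h2 (L.mp _ _ h1 this)

theorem contra {a b : Fml} (h1 : imp a b ∈ Λ) : imp (neg b) (neg a) ∈ Λ := by
  have := L.inst (t := imp (imp (lit 0) (lit 1)) (imp (neg (lit 1)) (neg (lit 0))))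
    (by simp [imp, neg, ModalFree])
    (by intro v; simp only [imp, neg, eval]; tauto) (s4 a b a a)
  simp only [subst_imp, subst_neg, Fml.subst, s4] at this
  exact L.mp _ _ h1 this

theorem iff_intro {a b : Fml} (h1 : imp a b ∈ Λ) (h2 : imp b a ∈ Λ) : iff a b ∈ Λ := by
  have := L.inst (t := imp (imp (lit 0) (lit 1)) (imp (imp (lit 1) (lit 0))
      (iff (lit 0) (lit 1))))
    (by simp [imp, neg, ModalFree, iff])
    (by intro v; simp only [imp, neg, eval, iff]; tauto) (s4 a b a a)
  simp only [subst_imp, subst_iff, Fml.subst, s4] at this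
  exact L.mp _ _ h2 (L.mp _ _ h1 this)

theorem iff_left {a b : Fml} (h1 : iff a b ∈ Λ) : imp a b ∈ Λ := by
  have := L.inst (t := imp (iff (lit 0) (lit 1)) (imp (lit 0) (lit 1)))
    (by simp [imp, neg, ModalFree, iff])
    (by intro v; simp only [imp, neg, eval, iff]; tauto) (s4 a b a a)
  simp only [subst_imp, subst_iff, Fml.subst, s4] at this
  exact L.mp _ _ h1 this

theorem or_elim_self (a : Fml) : imp (or a a) a ∈ Λ := by
  have := L.inst (t := imp (or (lit 0) (lit 0)) (lit 0)) (by simp [imp, neg, ModalFree])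
    (by intro v; simp only [imp, neg, eval]; tauto) (s4 a a a a)
  simpa [Fml.subst, s4] using this

theorem and_right (a b : Fml) : imp (and a b) b ∈ Λ := by
  have := L.inst (t := imp (and (lit 0) (lit 1)) (lit 1)) (by simp [imp, neg, ModalFree])
    (by intro v; simp only [imp, neg, eval]; tauto) (s4 a b a a)
  simpa [Fml.subst, s4] using this

theorem or_iff {a b : Fml} (h1 : imp a b ∈ Λ) : iff (or a b) b ∈ Λ := by
  have := L.inst (t := imp (imp (lit 0) (lit 1)) (iff (or (lit 0) (lit 1)) (lit 1)))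
    (by simp [imp, neg, ModalFree, iff])
    (by intro v; simp only [imp, neg, eval, iff]; tauto) (s4 a b a a)
  simp only [subst_imp, subst_iff, Fml.subst, s4] at this
  exact L.mp _ _ h1 this

theorem dia_mono {a b : Fml} (h : imp a b ∈ Λ) : imp (dia a) (dia b) ∈ Λ := by
  have h1 := L.subst (s4 a b a a) _ L.mono
  simp only [subst_imp, Fml.subst, s4] at h1
  exact L.trans h1 (L.iff_left (L.cong _ _ (L.or_iff h)))

theorem box_mono {a b : Fml} (h : imp a b ∈ Λ) : imp (box a) (box b) ∈ Λ := by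
  have h1 := L.contra (L.dia_mono (L.contra h))
  simpa [neg] using h1

/-- Replacing literals by weaker formulas gives a weaker formula. -/
theorem rep_mono {f g f' g' : ℕ → Fml} (hf : ∀ n, imp (f n) (f' n) ∈ Λ)
    (hg : ∀ n, imp (g n) (g' n) ∈ Λ) (φ : Fml) : imp (rep f g φ) (rep f' g' φ) ∈ Λ := by
  induction φ with
  | lit n => exact hf n
  | nlit n => exact hg n
  | bot => exact L.refl _
  | top => exact L.refl _
  | and φ ψ ih1 ih2 => exact L.and_mono ih1 ih2
  | or φ ψ ih1 ih2 => exact L.or_mono ih1 ih2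
  | dia φ ih => exact L.dia_mono ih
  | box φ ih => exact L.box_mono ih

end MonotoneLogic

/-- Every monotone modal logic with the Lyndon interpolation property has the Lyndon positivity
property. -/
theorem result : ∀ Λ : Set Fml, MonotoneLogic Λ → LIP Λ → LPP Λ := by
  classical
  intro Λ L hLIP φ hφ
  obtain ⟨q, hq1, hq2, hφ⟩ := hφ
  -- the weaker formula
  have h1 : imp φ (rep (fun n => or (lit n) (lit (q n))) (fun n => nlit (q n)) φ) ∈ Λ := by
    refine L.trans hφ ?_
    rw [subst_eq_rep]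
    refine L.rep_mono (fun n => L.refl _) (fun n => ?_) φ
    exact L.and_right _ _
  obtain ⟨θ, hθ, h2, h3⟩ := hLIP _ _ h1
  have hpos : ∀ n b, (n, b) ∈ lits θ → b = true ∧ n ∈ vars φ := by
    intro n b hn
    obtain ⟨ha, hb⟩ := hθ hn
    refine ⟨?_, b, ha⟩
    obtain ⟨m, hm, hb⟩ := lits_rep _ _ _ _ hb
    rcases hb with hb | hb
    · rcases hb with hb | hb
      · exact (Prod.mk.inj hb).2
      · exact (Prod.mk.inj hb).2
    · exfalso
      have : n = q m := (Prod.mk.inj hb).1
      exact hq2 m hm (this ▸ ⟨b, ha⟩)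
  refine ⟨θ, ?_, ?_⟩
  · intro n hn
    exact absurd (hpos n false hn).1 (by simp)
  · -- the substitution sending `q n` to `n`
    refine L.iff_intro h2 ?_
    let s : ℕ → Fml := fun m => if h : ∃ n ∈ vars φ, q n = m then lit h.choose else lit m
    have hs1 : ∀ n ∈ vars φ, s n = lit n := by
      intro n hn
      have : ¬ ∃ n' ∈ vars φ, q n' = n := by
        rintro ⟨n', hn', rfl⟩
        exact hq2 n' hn' hn
      simp only [s, this, dif_neg, not_false_eq_true]
    have hs2 : ∀ n ∈ vars φ, s (q n) = lit n := by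
      intro n hn
      have h : ∃ n' ∈ vars φ, q n' = q n := ⟨n, hn, rfl⟩
      simp only [s, dif_pos h]
      rw [hq1 h.choose_spec.1 hn h.choose_spec.2]
    have h4 := L.subst s _ h3
    rw [subst_imp, subst_rep, subst_eq_rep s θ] at h4
    have h5 : rep s (fun n => neg (s n)) θ = θ := by
      conv_rhs => rw [← rep_id θ]
      refine rep_congr θ ?_
      rintro n ⟨b, hb⟩
      have := (hpos n b hb).2
      rw [hs1 n this]
      exact ⟨rfl, rfl⟩
    rw [h5] at h4
    refine L.trans h4 ?_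
    have h6 : rep (fun n => subst s (or (lit n) (lit (q n)))) (fun n => subst s (nlit (q n))) φ =
        rep (fun n => or (lit n) (lit n)) nlit φ := by
      refine rep_congr φ ?_
      intro n hn
      simp only [subst, hs1 n hn, hs2 n hn, neg, and_self]
    rw [h6]
    have h7 := L.rep_mono (f := fun n => or (lit n) (lit n)) (g := nlit) (f' := lit) (g' := nlit)
      (fun n => L.or_elim_self _) (fun n => L.refl _) φ
    rwa [rep_id] at h7

end Pool.Agent.Results.MP_55f31a_lc.LyndonPositivity
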